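import Mathlib
import Pool.Agent.Helper832.AutC.Local

/-!
Homomorphisms between finite abelian `p`-groups with a prescribed value: the height condition.
-/

set_option autoImplicit false

namespace Pool.Agent.N47.AZ

open Pool.Agent.Helper832.AutC

lemma exists_hom_cyclic {A B : Type} [CommGroup A] [Finite A] [CommGroup B] [Finite B]
    [IsCyclic B] {p : ℕ} [hp : Fact p.Prime] (hA : IsPGroup p A) (x : A) (y : B)
    (h : ∀ j, (∃ a : A, x ^ p ^ j = a ^ Nat.card B) → y ^ p ^ j = 1) :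
    ∃ f : A →* B, f x = y := by
  classical
  set n := Nat.card B with hn
  have hn0 : 0 < n := Nat.card_pos
  haveI : NeZero n := ⟨hn0.ne'⟩
  have hex : ∃ j, ∃ a : A, x ^ p ^ j = a ^ n := by
    obtain ⟨k, hk⟩ := hA x
    exact ⟨k, 1, by rw [hk, one_pow]⟩
  have hs := Nat.find_spec hex
  have hmin := fun m => Nat.find_min hex (m := m)
  set s := Nat.find hex with hsd
  have hys : y ^ p ^ s = 1 := h s hs
  rcases Nat.eq_zero_or_pos s with h0 | hpos
  · rw [h0, pow_zero, pow_one] at hys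
    exact ⟨1, by rw [hys]; rfl⟩
  obtain ⟨t, ht⟩ := Nat.exists_eq_succ_of_ne_zero hpos.ne'
  have hnot : ¬ ∃ a : A, x ^ p ^ t = a ^ n := hmin t (by omega)
  set N : Subgroup A := (powMonoidHom n : A →* A).range with hN
  have hx1 : ((x ^ p ^ t : A) : A ⧸ N) ≠ 1 := by
    intro h1
    rw [QuotientGroup.eq_one_iff] at h1
    obtain ⟨a, ha⟩ := h1
    exact hnot ⟨a, ha.symm⟩
  obtain ⟨χ, hχ⟩ := CommGroup.exists_apply_ne_one_of_hasEnoughRootsOfUnity (A ⧸ N) ℂ hx1
  have hcard1 : Nat.card (rootsOfUnity n ℂ) = n := Complex.card_rootsOfUnity n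
  have hcard : Nat.card B = Nat.card (rootsOfUnity n ℂ) := hcard1.symm
  let e : rootsOfUnity n ℂ ≃* B := mulEquivOfCyclicCardEq hcard.symm
  let g : A →* rootsOfUnity n ℂ := (χ.comp (QuotientGroup.mk' N)).codRestrict _ (by
    intro a
    rw [mem_rootsOfUnity]
    show (χ (a : A ⧸ N)) ^ n = 1
    rw [← map_pow]
    have : ((a : A ⧸ N)) ^ n = 1 := by
      have h2 : ((a ^ n : A) : A ⧸ N) = 1 := by
        rw [QuotientGroup.eq_one_iff]
        exact ⟨a, rfl⟩
      exact h2
    rw [this, map_one])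
  let f : A →* B := e.toMonoidHom.comp g
  have hf1 : f x ^ p ^ t ≠ 1 := by
    intro h1
    apply hχ
    have h2 : e (g (x ^ p ^ t)) = 1 := by
      have : f (x ^ p ^ t) = 1 := by rw [map_pow]; exact h1
      exact this
    have h3 : g (x ^ p ^ t) = 1 := (MulEquiv.map_eq_one_iff e).mp h2
    have h4 := congrArg Subtype.val h3
    exact h4
  have hf2 : f x ^ p ^ (t + 1) = 1 := by
    obtain ⟨a, ha⟩ := hs
    rw [ht] at ha
    rw [← map_pow]
    show f (x ^ p ^ t.succ) = 1
    rw [ha, map_pow]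
    exact pow_card_eq_one'
  have hord : orderOf (f x) = p ^ (t + 1) := orderOf_eq_prime_pow hf1 hf2
  have hy : orderOf y ∣ orderOf (f x) := by
    rw [hord]
    apply orderOf_dvd_of_pow_eq_one
    rw [← Nat.succ_eq_add_one, ← ht]
    exact hys
  obtain ⟨k, hk⟩ := mem_zpowers_of_dvd y (f x) hy
  refine ⟨f ^ k, ?_⟩
  exact hk

/-- decomposition of a finite commutative group as a product of cyclic groups -/
lemma exists_decomp (B : Type) [CommGroup B] [Finite B] :
    ∃ (ι : Type) (_ : Fintype ι) (C : ι → Type) (_ : ∀ i, CommGroup (C i)) (_ : ∀ i, Finite (C i))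
      (_ : ∀ i, IsCyclic (C i)), Nonempty (B ≃* (∀ i, C i)) := by
  obtain ⟨ι, hι, n, hn, ⟨e⟩⟩ := CommGroup.equiv_prod_multiplicative_zmod_of_finite B
  have : ∀ i, NeZero (n i) := fun i => ⟨by have := hn i; omega⟩
  exact ⟨ι, hι, fun i => Multiplicative (ZMod (n i)), fun i => inferInstance,
    fun i => inferInstance, fun i => inferInstance, ⟨e⟩⟩

lemma exists_hom {A B : Type} [CommGroup A] [Finite A] [CommGroup B] [Finite B]
    {p : ℕ} [hp : Fact p.Prime] (hA : IsPGroup p A) (hB : IsPGroup p B) (x : A) (y : B)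
    (h : ∀ i j, (∃ a : A, x ^ p ^ j = a ^ p ^ i) → ∃ b : B, y ^ p ^ j = b ^ p ^ i) :
    ∃ f : A →* B, f x = y := by
  classical
  obtain ⟨ι, _, C, _, _, hC, ⟨e⟩⟩ := exists_decomp B
  have hpi : ∀ i, IsPGroup p (C i) := by
    intro i c
    obtain ⟨b, hb⟩ := e.surjective (Pi.mulSingle i c)
    obtain ⟨k, hk⟩ := hB b
    refine ⟨k, ?_⟩
    have h1 : (Pi.mulSingle i c : ∀ i, C i) ^ p ^ k = 1 := by
      rw [← hb, ← map_pow, hk, map_one]
    have h2 := congrFun h1 i
    simpa using h2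
  have hcomp : ∀ i, ∃ f : A →* C i, f x = e y i := by
    intro i
    apply exists_hom_cyclic hA
    intro j hj
    obtain ⟨m, hm⟩ := (IsPGroup.iff_card.mp (hpi i))
    rw [hm] at hj
    obtain ⟨b, hb⟩ := h m j hj
    have h1 : (e y i) ^ p ^ j = (e b i) ^ p ^ m := by
      have h2 : e (y ^ p ^ j) = e (b ^ p ^ m) := by rw [hb]
      rw [map_pow, map_pow] at h2
      exact congrFun h2 i
    rw [h1, ← hm]
    exact pow_card_eq_one'
  choose f hf using hcomp
  refine ⟨e.symm.toMonoidHom.comp (MonoidHom.pi f), ?_⟩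
  show e.symm (fun i => f i x) = y
  rw [MulEquiv.symm_apply_eq]
  funext i
  exact hf i

/-- a homomorphism to a finite commutative `p`-group whose value at `x` is not in `N` has a
component, with values in a cyclic group, of the same kind -/
lemma exists_component {A B : Type} [CommGroup A] [CommGroup B] [Finite B]
    {p : ℕ} [hp : Fact p.Prime] (hB : IsPGroup p B) (f : A →* B) (x : A) (N : Subgroup B)
    (hx : f x ∉ N) : ∃ (f' : A →* B) (z : B), (∀ a, f' a ∈ Subgroup.zpowers z) ∧ f' x ∉ N := by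
  classical
  obtain ⟨ι, _, C, _, _, hC, ⟨e⟩⟩ := exists_decomp B
  let g : ι → A →* B := fun i =>
    (e.symm.toMonoidHom.comp ((MonoidHom.mulSingle C i).comp (Pi.evalMonoidHom C i))).comp
      (e.toMonoidHom.comp f)
  have hprod : ∏ i, g i x = f x := by
    apply e.injective
    rw [map_prod]
    have : ∀ i, e (g i x) = Pi.mulSingle i (e (f x) i) := by
      intro i
      show e (e.symm (Pi.mulSingle i (e (f x) i))) = _
      rw [MulEquiv.apply_symm_apply]
    rw [Finset.prod_congr rfl (fun i _ => this i)]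
    exact Finset.univ_prod_mulSingle _
  obtain ⟨i, hi⟩ : ∃ i, g i x ∉ N := by
    by_contra hcon
    push Not at hcon
    apply hx
    rw [← hprod]
    exact Subgroup.prod_mem _ (fun i _ => hcon i)
  obtain ⟨c, hc⟩ := (hC i).exists_generator
  refine ⟨g i, e.symm (Pi.mulSingle i c), ?_, hi⟩
  intro a
  obtain ⟨k, hk⟩ := hc (e (f a) i)
  refine ⟨k, ?_⟩
  show (e.symm (Pi.mulSingle i c)) ^ k = e.symm (Pi.mulSingle i (e (f a) i))
  have hk' : c ^ k = e (f a) i := hk
  rw [← map_zpow, ← hk']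
  congr 1
  exact (map_zpow (MonoidHom.mulSingle C i) c k).symm

end Pool.Agent.N47.AZ
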