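import Mathlib
import Pool.Agent.N47.AZ.Hom

/-!
Central automorphisms and class-preserving automorphisms of finite `p`-groups of class two.
-/

set_option autoImplicit false

open scoped commutatorElement

namespace Pool.Agent.N47.AZ

open Pool.Agent.Helper832.AutC

/-- the group of central automorphisms of `G`: the automorphisms which induce the identity on the
central quotient -/
def AutZ (G : Type) [Group G] : Subgroup (MulAut G) where
  carrier := {α | ∀ x : G, x⁻¹ * α x ∈ Subgroup.center G}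
  mul_mem' := by
    intro α β hα hβ x
    have h := mul_mem (hβ x) (hα (β x))
    have e : x⁻¹ * β x * ((β x)⁻¹ * α (β x)) = x⁻¹ * α (β x) := by group
    rw [e] at h
    exact h
  one_mem' := by
    intro x
    rw [MulAut.one_apply, inv_mul_cancel]
    exact one_mem _
  inv_mem' := by
    intro α hα x
    have h := inv_mem (hα (α⁻¹ x))
    rw [MulAut.apply_inv_self, mul_inv_rev, inv_inv] at h
    exact h

section

variable {G : Type} [Group G]

lemma comm_mem (a b : G) : ⁅a, b⁆ ∈ commutator G :=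
  Subgroup.commutator_mem_commutator (Subgroup.mem_top _) (Subgroup.mem_top _)

lemma ctr {z : G} (hz : z ∈ Subgroup.center G) (g : G) : g * z = z * g :=
  Subgroup.mem_center_iff.mp hz g

lemma comm_le_center (hc : ∀ a b c : G, ⁅⁅a, b⁆, c⁆ = 1) : commutator G ≤ Subgroup.center G := by
  rw [commutator_def, Subgroup.commutator_le]
  intro a _ b _
  exact comm_center hc a b

lemma hom_comm (f : G →* Subgroup.center G) {d : G} (hd : d ∈ commutator G) : f d = 1 := by
  have h1 : commutator G ≤ f.ker := by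
    rw [commutator_def, Subgroup.commutator_le]
    intro g _ h _
    rw [MonoidHom.mem_ker, map_commutatorElement, commutatorElement_eq_one_iff_mul_comm]
    exact mul_comm _ _
  exact MonoidHom.mem_ker.mp (h1 hd)

/-- a central automorphism is given by a homomorphism to the centre -/
lemma hom_of_autZ {α : MulAut G} (hα : α ∈ AutZ G) :
    ∃ f : G →* Subgroup.center G, ∀ x, α x = x * (f x : G) := by
  refine ⟨MonoidHom.mk' (fun x => ⟨x⁻¹ * α x, hα x⟩) ?_, fun x => ?_⟩
  · intro x y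
    apply Subtype.ext
    show (x * y)⁻¹ * α (x * y) = x⁻¹ * α x * (y⁻¹ * α y)
    have h := ctr (hα x) y⁻¹
    rw [map_mul, mul_inv_rev]
    calc y⁻¹ * x⁻¹ * (α x * α y) = (y⁻¹ * (x⁻¹ * α x)) * α y := by group
      _ = ((x⁻¹ * α x) * y⁻¹) * α y := by rw [h]
      _ = _ := by group
  · show α x = x * (x⁻¹ * α x)
    group

/-- a homomorphism to the centre gives a central automorphism -/
lemma autZ_of_hom [Finite G] (f : G →* Subgroup.center G)
    (hinj : ∀ x : G, x * (f x : G) = 1 → x = 1) :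
    ∃ α ∈ AutZ G, ∀ x, α x = x * (f x : G) := by
  let φ : G →* G := MonoidHom.mk' (fun x => x * (f x : G)) (by
    intro x y
    rw [map_mul, Subgroup.coe_mul]
    have h := ctr (f x).2 y
    calc x * y * ((f x : G) * (f y : G)) = x * (y * (f x : G)) * (f y : G) := by group
      _ = x * ((f x : G) * y) * (f y : G) := by rw [h]
      _ = _ := by group)
  have hφ : Function.Injective φ := by
    rw [injective_iff_map_eq_one]
    exact hinj
  have hb : Function.Bijective φ := Finite.injective_iff_bijective.mp hφ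
  refine ⟨MulEquiv.ofBijective φ hb, ?_, fun x => rfl⟩
  intro x
  show x⁻¹ * (x * (f x : G)) ∈ _
  rw [inv_mul_cancel_left]
  exact (f x).2

lemma isConj_mul_iff (hc : ∀ a b c : G, ⁅⁅a, b⁆, c⁆ = 1) (x z : G) :
    IsConj x (x * z) ↔ ∃ g, z = ⁅x, g⁆ := by
  rw [isConj_iff_two hc]
  constructor
  · rintro ⟨g, hg⟩
    exact ⟨g, mul_left_cancel hg⟩
  · rintro ⟨g, hg⟩
    exact ⟨g, by rw [hg]⟩

/-- the condition on heights -/
def Ht (p : ℕ) (x z : G) : Prop :=
  ∀ i j : ℕ, (∃ g : G, (g ^ p ^ i)⁻¹ * x ^ p ^ j ∈ Subgroup.center G) →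
    ∃ w ∈ Subgroup.center G, z ^ p ^ j = w ^ p ^ i

lemma pr_pow (hc : ∀ a b c : G, ⁅⁅a, b⁆, c⁆ = 1) (u g : G) (n : ℕ) :
    ⁅u ^ n, g⁆ = ⁅u, g⁆ ^ n := by
  have h1 : pr hc (u ^ n) g = (pr hc u g) ^ n := by
    rw [map_pow]; rfl
  exact congrArg Subtype.val h1

lemma center_comm {z : G} (hz : z ∈ Subgroup.center G) (g : G) : ⁅z, g⁆ = 1 := by
  rw [commutatorElement_eq_one_iff_mul_comm]
  exact (ctr hz g).symm

lemma comm_eq_of_center (hc : ∀ a b c : G, ⁅⁅a, b⁆, c⁆ = 1) {u v : G}
    (h : u⁻¹ * v ∈ Subgroup.center G) (g : G) : ⁅v, g⁆ = ⁅u, g⁆ := by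
  have h1 : pr hc v g = pr hc u g * pr hc (u⁻¹ * v) g := by
    have : pr hc v = pr hc u * pr hc (u⁻¹ * v) := by
      rw [← map_mul, mul_inv_cancel_left]
    rw [this]; rfl
  have h2 := congrArg Subtype.val h1
  have h3 : ⁅v, g⁆ = ⁅u, g⁆ * ⁅u⁻¹ * v, g⁆ := h2
  rw [h3, center_comm h, mul_one]

/-- values of commutators satisfy the condition on heights -/
lemma ht_comm (hc : ∀ a b c : G, ⁅⁅a, b⁆, c⁆ = 1) (p : ℕ) (x g : G) : Ht p x ⁅x, g⁆ := by
  rintro i j ⟨h, hh⟩
  refine ⟨⁅h, g⁆, comm_center hc _ _, ?_⟩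
  rw [← pr_pow hc, ← pr_pow hc, comm_eq_of_center hc hh]

/-- values of homomorphisms which kill the centre satisfy the condition on heights -/
lemma ht_hom (f : G →* Subgroup.center G) (hf : ∀ z ∈ Subgroup.center G, f z = 1) (p : ℕ) (x : G) :
    Ht p x (f x : G) := by
  rintro i j ⟨h, hh⟩
  refine ⟨(f h : G), (f h).2, ?_⟩
  have h1 := hf _ hh
  rw [map_mul, map_inv, map_pow, map_pow, inv_mul_eq_one] at h1
  have h2 := congrArg Subtype.val h1
  simp only [SubgroupClass.coe_pow] at h2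
  exact h2.symm

/-- the converse -/
lemma exists_hom_center [Finite G] {p : ℕ} [hp : Fact p.Prime] (hG : IsPGroup p G)
    (hZ : Subgroup.center G = commutator G) (x z : G) (hz : z ∈ Subgroup.center G)
    (h : Ht p x z) : ∃ f : G →* Subgroup.center G, (f x : G) = z := by
  have hA : IsPGroup p (Abelianization G) := hG.to_quotient _
  have hB : IsPGroup p (Subgroup.center G) := hG.to_subgroup _
  obtain ⟨f, hf⟩ := exists_hom hA hB (Abelianization.of x) ⟨z, hz⟩ (by
    rintro i j ⟨a, ha⟩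
    obtain ⟨g, rfl⟩ := QuotientGroup.mk_surjective a
    have h1 : (g ^ p ^ i)⁻¹ * x ^ p ^ j ∈ commutator G := by
      apply QuotientGroup.eq.mp
      exact ha.symm
    rw [← hZ] at h1
    obtain ⟨w, hw, hzw⟩ := h i j ⟨g, h1⟩
    exact ⟨⟨w, hw⟩, Subtype.ext hzw⟩)
  exact ⟨f.comp Abelianization.of, congrArg Subtype.val hf⟩

end

end Pool.Agent.N47.AZ
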