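import Mathlib
import Pool.Agent.N47.AZ.Cent

/-!
If all central automorphisms of a finite `p`-group of class two are class-preserving, then the
centre is the commutator subgroup.
-/

set_option autoImplicit false

open scoped commutatorElement

namespace Pool.Agent.N47.AZ

open Pool.Agent.Helper832.AutC

lemma max_ord {H : Type*} [Group H] [Finite H] {p : ℕ} [hp : Fact p.Prime] (hH : IsPGroup p H) :
    ∃ (e : ℕ) (c : H), orderOf c = p ^ e ∧ ∀ h : H, h ^ p ^ e = 1 := by
  obtain ⟨c, hc⟩ := Finite.exists_max (fun h : H => orderOf h)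
  obtain ⟨e, he⟩ := IsPGroup.iff_orderOf.mp hH c
  refine ⟨e, c, he, fun h => ?_⟩
  obtain ⟨k, hk⟩ := IsPGroup.iff_orderOf.mp hH h
  have h1 := hc h
  rw [hk, he] at h1
  have h2 : k ≤ e := (Nat.pow_le_pow_iff_right hp.out.one_lt).mp h1
  apply orderOf_dvd_iff_pow_eq_one.mp
  rw [hk]
  exact pow_dvd_pow p h2

variable {G : Type} [Group G] [Finite G]

lemma hom_facts (hc : ∀ a b c : G, ⁅⁅a, b⁆, c⁆ = 1) (h : AutZ G ≤ AutC G)
    (f : G →* Subgroup.center G) (hinj : ∀ x : G, x * (f x : G) = 1 → x = 1) :
    (∀ x, ∃ g, (f x : G) = ⁅x, g⁆) ∧ ∀ z ∈ Subgroup.center G, f z = 1 := by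
  obtain ⟨α, hα, hαf⟩ := autZ_of_hom f hinj
  have h1 : ∀ x, ∃ g, (f x : G) = ⁅x, g⁆ := by
    intro x
    have h2 := h hα x
    rw [hαf] at h2
    exact (isConj_mul_iff hc _ _).mp h2
  refine ⟨h1, fun z hz => ?_⟩
  obtain ⟨g, hg⟩ := h1 z
  rw [center_comm hz] at hg
  exact Subtype.ext hg

theorem center_eq_comm {p : ℕ} [hp : Fact p.Prime] (hG : IsPGroup p G)
    (hc : ∀ a b c : G, ⁅⁅a, b⁆, c⁆ = 1) (hna : ∃ a b : G, ⁅a, b⁆ ≠ 1) (h : AutZ G ≤ AutC G) :
    Subgroup.center G = commutator G := by
  classical
  have hDZ := comm_le_center hc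
  letI iD : CommGroup (commutator G) :=
    { (inferInstance : Group (commutator G)) with
      mul_comm := fun u v => Subtype.ext
        ((Subgroup.mem_center_iff.mp (hDZ v.2)) u) }
  have hA : IsPGroup p (Abelianization G) := hG.to_quotient _
  have hB : IsPGroup p (Subgroup.center G) := hG.to_subgroup _
  have hD : IsPGroup p (commutator G) := hG.to_subgroup _
  obtain ⟨e, c, hce, hDe⟩ := max_ord hD
  have he0 : 0 < e := by
    rcases Nat.eq_zero_or_pos e with h0 | h0
    · exfalso
      obtain ⟨a, b, hab⟩ := hna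
      apply hab
      have := hDe ⟨⁅a, b⁆, comm_mem a b⟩
      rw [h0, pow_zero, pow_one] at this
      exact congrArg Subtype.val this
    · exact h0
  -- first step
  have C1 : ∀ z ∈ Subgroup.center G, ∃ g : G, (g ^ p ^ e)⁻¹ * z ∈ commutator G := by
    intro z hz
    by_contra hcon
    have hht : ∀ i j, (∃ a : Abelianization G, (Abelianization.of z) ^ p ^ j = a ^ p ^ i) →
        ∃ b : commutator G, (c ^ p ^ (e - 1)) ^ p ^ j = b ^ p ^ i := by
      rintro i j ⟨a, ha⟩
      obtain ⟨g, rfl⟩ := QuotientGroup.mk_surjective a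
      rcases Nat.eq_zero_or_pos j with rfl | hj
      · rw [pow_zero, pow_one] at ha
        have hi : i < e := by
          by_contra hi
          push Not at hi
          apply hcon
          refine ⟨g ^ p ^ (i - e), ?_⟩
          rw [← pow_mul, ← pow_add, Nat.sub_add_cancel hi]
          apply QuotientGroup.eq.mp
          exact ha.symm
        refine ⟨c ^ p ^ (e - 1 - i), ?_⟩
        rw [pow_zero, pow_one, ← pow_mul, ← pow_add]
        congr 2
        omega
      · refine ⟨1, ?_⟩
        rw [one_pow, ← pow_mul, ← pow_add]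
        have h1 : c ^ p ^ e = 1 := by rw [← hce, pow_orderOf_eq_one]
        have h2 : e - 1 + j = e + (j - 1) := by omega
        rw [h2, pow_add, pow_mul, h1, one_pow]
    obtain ⟨f, hf⟩ := exists_hom hA hD (Abelianization.of z) (c ^ p ^ (e - 1)) hht
    let F : G →* Subgroup.center G :=
      (Subgroup.inclusion hDZ).comp (f.comp Abelianization.of)
    have hF : ∀ x, (F x : G) ∈ commutator G := fun x => (f (Abelianization.of x)).2
    have hinj : ∀ x : G, x * (F x : G) = 1 → x = 1 := by
      intro x hx
      have h1 : x = (F x : G)⁻¹ := eq_inv_of_mul_eq_one_left hx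
      have h2 : x ∈ commutator G := by
        rw [h1]; exact inv_mem (hF x)
      rw [hom_comm F h2, OneMemClass.coe_one, mul_one] at hx
      exact hx
    have h1 := (hom_facts hc h F hinj).2 z hz
    have h2 : (F z : G) = ((c ^ p ^ (e - 1) : commutator G) : G) := by
      show ((f (Abelianization.of z) : commutator G) : G) = _
      rw [hf]
    rw [h1] at h2
    have h3 : c ^ p ^ (e - 1) = 1 := Subtype.ext h2.symm
    have h4 := orderOf_dvd_of_pow_eq_one h3
    rw [hce] at h4
    have h5 := (Nat.pow_dvd_pow_iff_le_right hp.out.one_lt).mp h4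
    omega
  -- second step
  have C2 : ∀ f : G →* Subgroup.center G, ∀ x : G, x * (f x : G) = 1 → x = 1 := by
    intro f x hx
    have hfx : (f x : G) = x⁻¹ := (inv_eq_of_mul_eq_one_right hx).symm
    have h1 : ∀ n : ℕ, ∃ w : Subgroup.center G, x = (w : G) ^ p ^ (e * n) := by
      intro n
      induction n with
      | zero =>
        refine ⟨(f x)⁻¹, ?_⟩
        rw [mul_zero, pow_zero, pow_one, Subgroup.coe_inv, hfx, inv_inv]
      | succ n ih =>
        obtain ⟨w, hw⟩ := ih
        obtain ⟨g, hg⟩ := C1 w w.2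
        have h2 : f (w : G) = (f g) ^ p ^ e := by
          have h3 := hom_comm f hg
          rw [map_mul, map_inv, map_pow, inv_mul_eq_one] at h3
          exact h3.symm
        refine ⟨(f g)⁻¹, ?_⟩
        have h3 : f x = ((f g) ^ p ^ e) ^ p ^ (e * n) := by
          rw [← h2, ← map_pow]
          congr 1
        have h4 : x = ((f x)⁻¹ : Subgroup.center G) := by
          rw [Subgroup.coe_inv, hfx, inv_inv]
        rw [h4, h3, ← pow_mul, ← pow_add, ← SubgroupClass.coe_pow, inv_pow]
        congr 4
        ring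
    obtain ⟨K, cK, -, hK⟩ := max_ord hB
    obtain ⟨w, hw⟩ := h1 K
    have h2 : (w : G) ^ p ^ (e * K) = 1 := by
      have h3 : e * K = K + (e - 1) * K := by
        conv_lhs => rw [← Nat.sub_add_cancel he0]
        ring
      have h4 : (w : G) ^ p ^ K = 1 := congrArg Subtype.val (hK w)
      rw [h3, pow_add, pow_mul, h4, one_pow]
    rw [hw, h2]
  -- third step
  obtain ⟨a, gA, hga, hAa⟩ := max_ord hA
  obtain ⟨g, rfl⟩ := QuotientGroup.mk_surjective gA
  have C3 : ∀ z ∈ Subgroup.center G, z ^ p ^ a = 1 → z ∈ commutator G := by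
    intro z hz hza
    obtain ⟨f, hf⟩ := exists_hom hA hB (Abelianization.of g) ⟨z, hz⟩ (by
      rintro i j ⟨b, hb⟩
      have hza' : (⟨z, hz⟩ : Subgroup.center G) ^ p ^ a = 1 := Subtype.ext hza
      rcases le_or_gt i j with hij | hij
      · refine ⟨(⟨z, hz⟩ : Subgroup.center G) ^ p ^ (j - i), ?_⟩
        rw [← pow_mul, ← pow_add, Nat.sub_add_cancel hij]
      · have hja : a ≤ j := by
          by_contra hja
          push Not at hja
          have hgo : orderOf (Abelianization.of g) = p ^ a := hga
          have key : (Abelianization.of g) ^ p ^ (j + (a - i)) = 1 := by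
            rw [pow_add, pow_mul, hb, ← pow_mul, ← pow_add]
            rcases le_total i a with hia | hia
            · rw [Nat.add_sub_cancel' hia]; exact hAa b
            · have : i + (a - i) = a + (i - a) := by omega
              rw [this, pow_add, pow_mul, hAa b, one_pow]
          have h4 := orderOf_dvd_of_pow_eq_one key
          rw [hgo] at h4
          have h5 := (Nat.pow_dvd_pow_iff_le_right hp.out.one_lt).mp h4
          omega
        refine ⟨1, ?_⟩
        have : j = a + (j - a) := by omega
        rw [one_pow, this, pow_add, pow_mul, hza', one_pow])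
    let F : G →* Subgroup.center G := f.comp Abelianization.of
    obtain ⟨k, hk⟩ := (hom_facts hc h F (C2 F)).1 g
    have h1 : (F g : G) = z := congrArg Subtype.val hf
    rw [← h1, hk]
    exact comm_mem _ _
  -- conclusion
  refine le_antisymm ?_ hDZ
  intro z hz
  rcases le_or_gt a e with hae | hae
  · obtain ⟨b, hb⟩ := C1 z hz
    have h1 : b ^ p ^ e ∈ commutator G := by
      have h2 : (Abelianization.of b) ^ p ^ e = 1 := by
        have : e = a + (e - a) := by omega
        rw [this, pow_add, pow_mul, hAa, one_pow]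
      exact (QuotientGroup.eq_one_iff (b ^ p ^ e)).mp h2
    have h3 := mul_mem h1 hb
    rwa [mul_inv_cancel_left] at h3
  · apply C3 z hz
    obtain ⟨n, hn⟩ := IsPGroup.iff_orderOf.mp hG z
    have hne : n ≤ e := by
      by_contra hne
      push Not at hne
      -- the power of order `p ^ (e + 1)`
      have h1 : z ^ p ^ (n - e - 1) ∈ commutator G := by
        apply C3 _ (pow_mem hz _)
        rw [← pow_mul, ← pow_add]
        have h2 : n - e - 1 + a = n + (a - e - 1) := by omega
        rw [h2, pow_add, pow_mul, ← hn, pow_orderOf_eq_one, one_pow]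
      have h2 := congrArg Subtype.val (hDe ⟨_, h1⟩)
      have h3 : z ^ p ^ (n - 1) = 1 := by
        have h4 : z ^ p ^ (n - 1) = (z ^ p ^ (n - e - 1)) ^ p ^ e := by
          rw [← pow_mul, ← pow_add]
          congr 2
          omega
        rw [h4]
        exact h2
      have h4 := orderOf_dvd_of_pow_eq_one h3
      rw [hn] at h4
      have h5 := (Nat.pow_dvd_pow_iff_le_right hp.out.one_lt).mp h4
      omega
    have h1 : a = n + (a - n) := by omega
    rw [h1, pow_add, pow_mul, ← hn, pow_orderOf_eq_one, one_pow]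

end Pool.Agent.N47.AZ
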