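import Mathlib
import Pool.Agent.N47.AZ.Nec

/-!
The criteria for the equality of the group of central automorphisms and the group of
class-preserving automorphisms.
-/

set_option autoImplicit false

open scoped commutatorElement

namespace Pool.Agent.N47.AZ

open Pool.Agent.Helper832.AutC

variable {G : Type} [Group G]

lemma autC_le_autZ (hc : ∀ a b c : G, ⁅⁅a, b⁆, c⁆ = 1) : AutC G ≤ AutZ G := by
  intro α hα x
  obtain ⟨g, hg⟩ := (isConj_iff_two hc _ _).mp (hα x)
  show x⁻¹ * α x ∈ Subgroup.center G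
  rw [hg, inv_mul_cancel_left]
  exact comm_center hc _ _

variable [Finite G]

omit [Finite G] in
/-- every homomorphism to the centre gives an automorphism if the centre is the commutator
subgroup -/
lemma inj_of_center_eq (hZ : Subgroup.center G = commutator G) (f : G →* Subgroup.center G) (x : G)
    (hx : x * (f x : G) = 1) : x = 1 := by
  have h1 : x = (f x : G)⁻¹ := eq_inv_of_mul_eq_one_left hx
  have h2 : x ∈ commutator G := by
    rw [h1, ← hZ]; exact inv_mem (f x).2
  rw [hom_comm f h2, OneMemClass.coe_one, mul_one] at hx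
  exact hx

theorem autZ_le_iff {p : ℕ} [hp : Fact p.Prime] (hG : IsPGroup p G)
    (hc : ∀ a b c : G, ⁅⁅a, b⁆, c⁆ = 1) (hZ : Subgroup.center G = commutator G) :
    AutZ G ≤ AutC G ↔ ∀ x y : G, IsConj x y ↔
      (x⁻¹ * y ∈ Subgroup.center G ∧ Ht p x (x⁻¹ * y)) := by
  constructor
  · intro h x y
    constructor
    · intro hxy
      obtain ⟨g, hg⟩ := (isConj_iff_two hc _ _).mp hxy
      rw [hg, inv_mul_cancel_left]
      exact ⟨comm_center hc _ _, ht_comm hc p x g⟩
    · rintro ⟨h1, h2⟩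
      obtain ⟨f, hf⟩ := exists_hom_center hG hZ x _ h1 h2
      obtain ⟨α, hα, hαf⟩ := autZ_of_hom f (inj_of_center_eq hZ f)
      have h3 := h hα x
      rw [hαf, hf, mul_inv_cancel_left] at h3
      exact h3
  · intro h α hα x
    obtain ⟨f, hf⟩ := hom_of_autZ hα
    rw [h, hf, inv_mul_cancel_left]
    refine ⟨(f x).2, ht_hom f ?_ p x⟩
    intro z hz
    rw [hZ] at hz
    exact hom_comm f hz

/-- the first criterion -/
theorem autZ_eq_iff {p : ℕ} [hp : Fact p.Prime] (hG : IsPGroup p G)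
    (hc : ∀ a b c : G, ⁅⁅a, b⁆, c⁆ = 1) (hna : ∃ a b : G, ⁅a, b⁆ ≠ 1) :
    AutZ G = AutC G ↔ (Subgroup.center G = commutator G ∧ ∀ x y : G, IsConj x y ↔
      (x⁻¹ * y ∈ Subgroup.center G ∧ Ht p x (x⁻¹ * y))) := by
  constructor
  · intro h
    have hZ := center_eq_comm hG hc hna h.le
    exact ⟨hZ, (autZ_le_iff hG hc hZ).mp h.le⟩
  · rintro ⟨hZ, h⟩
    exact le_antisymm ((autZ_le_iff hG hc hZ).mpr h) (autC_le_autZ hc)

/-- the second criterion, one direction -/
lemma crit_two_mp {p : ℕ} [hp : Fact p.Prime] (hG : IsPGroup p G)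
    (hZ : Subgroup.center G = commutator G) (N : Subgroup G) (x : G)
    (hx : ∀ f : G →* Subgroup.center G, (f x : G) ∈ N) (m k : ℕ) (z : G) (hkm : k < m)
    (hz : z ∈ Subgroup.center G)
    (hzm : z ^ p ^ m = 1) (hzk : z ^ p ^ k ∉ N) :
    ∃ g, (g ^ p ^ m)⁻¹ * x ^ p ^ (m - k - 1) ∈ Subgroup.center G := by
  by_contra hcon
  push Not at hcon
  have hht : Ht p x (z ^ p ^ k) := by
    rintro i j ⟨g, hg⟩
    rcases le_or_gt i (k + j) with hi | hi
    · refine ⟨z ^ p ^ (k + j - i), pow_mem hz _, ?_⟩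
      rw [← pow_mul, ← pow_mul, ← pow_add, ← pow_add, Nat.sub_add_cancel hi]
    · rcases le_or_gt m (k + j) with hj | hj
      · refine ⟨1, one_mem _, ?_⟩
        have h1 : k + j = m + (k + j - m) := by omega
        rw [one_pow, ← pow_mul, ← pow_add, h1, pow_add, pow_mul, hzm, one_pow]
      · exfalso
        -- raise to the power `p ^ (m - k - 1 - j)`
        set t := m - k - 1 - j with ht
        have h1 : (g ^ p ^ (i + t))⁻¹ * x ^ p ^ (m - k - 1) ∈ Subgroup.center G := by
          have h2 : ((g ^ p ^ i)⁻¹ * x ^ p ^ j) ^ p ^ t ∈ Subgroup.center G := pow_mem hg _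
          have h3 : x ^ p ^ j = g ^ p ^ i * ((g ^ p ^ i)⁻¹ * x ^ p ^ j) := by group
          have h4 : Commute (g ^ p ^ i) ((g ^ p ^ i)⁻¹ * x ^ p ^ j) := ctr hg _
          have h5 : x ^ p ^ (m - k - 1) =
              (g ^ p ^ (i + t)) * ((g ^ p ^ i)⁻¹ * x ^ p ^ j) ^ p ^ t := by
            have h6 : m - k - 1 = j + t := by omega
            rw [h6, pow_add p j t, pow_mul, h3, h4.mul_pow, ← pow_mul, ← pow_add, ← h3]
          rw [h5, inv_mul_cancel_left]
          exact h2
        have h2 : i + t = m + (i + t - m) := by omega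
        apply hcon (g ^ p ^ (i + t - m))
        rw [← pow_mul, ← pow_add, Nat.add_comm (i + t - m) m, ← h2]
        exact h1
  obtain ⟨f, hf⟩ := exists_hom_center hG hZ x _ (pow_mem hz _) hht
  apply hzk
  rw [← hf]
  exact hx f

/-- the second criterion, the values of homomorphisms -/
lemma crit_two_hom {p : ℕ} [hp : Fact p.Prime] (hG : IsPGroup p G)
    (hZ : Subgroup.center G = commutator G) (N : Subgroup G) (x : G)
    (hx : ∀ (m k : ℕ) (z : G), k < m → z ∈ Subgroup.center G → z ^ p ^ m = 1 → z ^ p ^ k ∉ N →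
      ∃ g, (g ^ p ^ m)⁻¹ * x ^ p ^ (m - k - 1) ∈ Subgroup.center G)
    (f : G →* Subgroup.center G) : (f x : G) ∈ N := by
  classical
  by_contra hcon
  have hB : IsPGroup p (Subgroup.center G) := hG.to_subgroup _
  -- a component
  let fA : Abelianization G →* Subgroup.center G := Abelianization.lift f
  have hfA : ∀ g, fA (Abelianization.of g) = f g := fun g => Abelianization.lift_apply_of _ _
  obtain ⟨f', c, hf', hxN⟩ := exists_component hB fA (Abelianization.of x)
    (N.subgroupOf (Subgroup.center G)) (by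
      rw [hfA, Subgroup.mem_subgroupOf]
      exact hcon)
  obtain ⟨m, hm⟩ := IsPGroup.iff_orderOf.mp hB c
  obtain ⟨r, hr⟩ := Subgroup.mem_zpowers_iff.mp (hf' (Abelianization.of x))
  obtain ⟨n, hn⟩ : ∃ n : ℕ, f' (Abelianization.of x) = c ^ n := by
    obtain ⟨n, hn⟩ := (Submonoid.mem_powers_iff _ _).mp
      (mem_powers_iff_mem_zpowers.mpr (hf' (Abelianization.of x)))
    exact ⟨n, hn.symm⟩
  have hcm : c ^ p ^ m = 1 := by rw [← hm, pow_orderOf_eq_one]
  have hne : f' (Abelianization.of x) ≠ 1 := by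
    intro h1
    apply hxN
    rw [h1]; exact one_mem _
  have hn0 : n ≠ 0 := by
    rintro rfl
    apply hne
    rw [hn, pow_zero]
  obtain ⟨k, u, hu, hnk⟩ := Nat.exists_eq_pow_mul_and_not_dvd hn0 p hp.out.ne_one
  have hkm : k < m := by
    by_contra hkm
    push Not at hkm
    apply hne
    have : k = m + (k - m) := by omega
    rw [hn, hnk, pow_mul, this, pow_add, pow_mul, hcm, one_pow, one_pow]
  have hck : c ^ p ^ k ∉ N.subgroupOf (Subgroup.center G) := by
    intro h1
    apply hxN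
    rw [hn, hnk, pow_mul]
    exact pow_mem h1 _
  obtain ⟨g, hg⟩ := hx m k c hkm c.2 (by
    have := congrArg Subtype.val hcm
    simpa using this) (by
    intro h1
    apply hck
    rw [Subgroup.mem_subgroupOf]
    simpa using h1)
  -- contradiction
  have hf'g : f' (Abelianization.of g) ^ p ^ m = 1 := by
    obtain ⟨r, hr⟩ := Subgroup.mem_zpowers_iff.mp (hf' (Abelianization.of g))
    rw [← hr, ← zpow_natCast, ← zpow_mul, mul_comm, zpow_mul, zpow_natCast, hcm, one_zpow]
  have h1 : f' (Abelianization.of x) ^ p ^ (m - k - 1) = 1 := by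
    rw [hZ] at hg
    have h2 : Abelianization.of ((g ^ p ^ m)⁻¹ * x ^ p ^ (m - k - 1)) = 1 := by
      have := (QuotientGroup.eq_one_iff ((g ^ p ^ m)⁻¹ * x ^ p ^ (m - k - 1))
        (N := commutator G)).mpr hg
      exact this
    have h3 : Abelianization.of x ^ p ^ (m - k - 1) = Abelianization.of g ^ p ^ m := by
      rw [map_mul, map_inv, map_pow, map_pow, inv_mul_eq_one] at h2
      exact h2.symm
    rw [← map_pow, h3, map_pow, hf'g]
  have h2 : c ^ (u * p ^ (m - 1)) = 1 := by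
    rw [← h1, hn, hnk, ← pow_mul]
    congr 1
    have : m - 1 = k + (m - k - 1) := by omega
    rw [this, pow_add]
    ring
  have h3 := orderOf_dvd_of_pow_eq_one h2
  rw [hm] at h3
  have h4 : p ^ m = p * p ^ (m - 1) := by
    rw [← pow_succ']
    congr 1
    omega
  rw [h4] at h3
  have h5 := Nat.dvd_of_mul_dvd_mul_right (pow_pos hp.out.pos _) h3
  exact hu h5

/-- the second criterion, the converse direction -/
lemma crit_two_mpr (hc : ∀ a b c : G, ⁅⁅a, b⁆, c⁆ = 1)
    (h : ∀ N ≤ Subgroup.center G,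
      IsCyclic (Subgroup.center G ⧸ N.subgroupOf (Subgroup.center G)) →
      ∀ x : G, (∀ g, ⁅x, g⁆ ∈ N) → ∀ f : G →* Subgroup.center G, (f x : G) ∈ N) :
    AutZ G ≤ AutC G := by
  intro α hα x
  obtain ⟨f, hf⟩ := hom_of_autZ hα
  rw [hf, isConj_mul_iff hc]
  by_contra hcon
  push Not at hcon
  have hq : f x ∉ (pr hc x).range := by
    rintro ⟨g, hg⟩
    exact hcon g (congrArg Subtype.val hg.symm)
  obtain ⟨N, hRN, hqN, c, hcN⟩ := residual (pr hc x).range (f x) hq
  set M : Subgroup G := N.map (Subgroup.center G).subtype with hM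
  have hMZ : M ≤ Subgroup.center G := by
    rintro _ ⟨w, -, rfl⟩
    exact w.2
  have hMN : M.subgroupOf (Subgroup.center G) = N := by
    rw [hM]
    exact Subgroup.comap_map_eq_self_of_injective (Subgroup.subtype_injective _) N
  have hcyc : IsCyclic (Subgroup.center G ⧸ M.subgroupOf (Subgroup.center G)) := by
    rw [hMN]
    refine ⟨(c : Subgroup.center G ⧸ N), fun q => ?_⟩
    obtain ⟨d, rfl⟩ := QuotientGroup.mk_surjective q
    obtain ⟨k, hk⟩ := hcN d
    refine ⟨k, ?_⟩
    have h1 := QuotientGroup.eq.mpr hk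
    exact h1
  obtain ⟨w, hw, hwx⟩ := h M hMZ hcyc x (fun g => ⟨pr hc x g, hRN ⟨g, rfl⟩, rfl⟩) f
  have h2 : w = f x := Subtype.ext hwx
  exact hqN (h2 ▸ hw)

/-- the elementwise form of the condition -/
lemma cond_iff {p : ℕ} [hp : Fact p.Prime] (hG : IsPGroup p G) (N : Subgroup G) (x : G) :
    (∀ (m k : ℕ) (z : G), k < m → z ∈ Subgroup.center G → z ^ p ^ m = 1 → z ^ p ^ k ∉ N →
      ∃ g, (g ^ p ^ m)⁻¹ * x ^ p ^ (m - k - 1) ∈ Subgroup.center G) ↔
    ∀ z ∈ Subgroup.center G, ∃ g : G,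
      (g ^ orderOf z)⁻¹ * x ^ Nat.card ↥(Subgroup.zpowers z ⊓ N) ∈ Subgroup.center G := by
  classical
  -- the card of the intersection
  have hcard : ∀ z : G, ∀ m', orderOf z = p ^ m' → ∃ s ≤ m',
      Nat.card ↥(Subgroup.zpowers z ⊓ N) = p ^ s ∧ ∀ k, (z ^ p ^ k ∈ N ↔ m' - s ≤ k) := by
    intro z m' hm'
    obtain ⟨s, hs⟩ := (IsPGroup.iff_card.mp
      (hG.to_subgroup (Subgroup.zpowers z ⊓ N : Subgroup G)))
    have h1 : Nat.card ↥(N.subgroupOf (Subgroup.zpowers z)) = p ^ s := by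
      rw [← hs, ← Subgroup.inf_subgroupOf_left]
      exact Nat.card_congr (Subgroup.subgroupOfEquivOfLe inf_le_left).toEquiv
    have h2 : Nat.card ↥(Subgroup.zpowers z) = p ^ m' := by
      rw [Nat.card_zpowers, hm']
    have h3 := (N.subgroupOf (Subgroup.zpowers z)).card_mul_index
    rw [h1, h2] at h3
    have hsm : s ≤ m' := (Nat.pow_dvd_pow_iff_le_right hp.out.one_lt).mp ⟨_, h3.symm⟩
    have h4 : (N.subgroupOf (Subgroup.zpowers z)).index = p ^ (m' - s) := by
      have h5 : p ^ m' = p ^ s * p ^ (m' - s) := by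
        rw [← pow_add]; congr 1; omega
      rw [h5] at h3
      exact Nat.eq_of_mul_eq_mul_left (pow_pos hp.out.pos _) h3
    refine ⟨s, hsm, hs, fun k => ?_⟩
    have h6 : z ^ p ^ (m' - s) ∈ N := by
      have h7 := Subgroup.pow_index_mem (N.subgroupOf (Subgroup.zpowers z))
        (⟨z, Subgroup.mem_zpowers z⟩ : Subgroup.zpowers z)
      rw [h4, Subgroup.mem_subgroupOf] at h7
      exact h7
    constructor
    · intro hk
      by_contra hcon
      push Not at hcon
      have h8 : z ^ p ^ k ∈ Subgroup.zpowers z ⊓ N :=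
        ⟨pow_mem (Subgroup.mem_zpowers z) _, hk⟩
      have h9 : (⟨z ^ p ^ k, h8⟩ : ↥(Subgroup.zpowers z ⊓ N)) ^ p ^ s = 1 := by
        rw [← hs]; exact pow_card_eq_one'
      have h10 : (z ^ p ^ k) ^ p ^ s = 1 := congrArg Subtype.val h9
      rw [← pow_mul, ← pow_add] at h10
      have h11 := orderOf_dvd_of_pow_eq_one h10
      rw [hm'] at h11
      have h12 := (Nat.pow_dvd_pow_iff_le_right hp.out.one_lt).mp h11
      omega
    · intro hk
      have h8 : k = (m' - s) + (k - (m' - s)) := by omega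
      rw [h8, pow_add, pow_mul]
      exact pow_mem h6 _
  constructor
  · intro h z hz
    obtain ⟨m', hm'⟩ := IsPGroup.iff_orderOf.mp hG z
    obtain ⟨s, hsm, hs, hk⟩ := hcard z m' hm'
    rw [hm', hs]
    rcases Nat.lt_or_ge s m' with hlt | hge
    · obtain ⟨g, hg⟩ := h m' (m' - s - 1) z (by omega) hz (by rw [← hm', pow_orderOf_eq_one])
        (by rw [hk]; omega)
      have h1 : m' - (m' - s - 1) - 1 = s := by omega
      rw [h1] at hg
      exact ⟨g, hg⟩
    · have : s = m' := le_antisymm hsm hge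
      subst this
      exact ⟨x, by rw [inv_mul_cancel]; exact one_mem _⟩
  · intro h m k z hkm hz hzm hzk
    obtain ⟨m', hm'⟩ := IsPGroup.iff_orderOf.mp hG z
    obtain ⟨s, hsm, hs, hk⟩ := hcard z m' hm'
    obtain ⟨g, hg⟩ := h z hz
    rw [hm', hs] at hg
    rw [hk] at hzk
    push Not at hzk
    have hmm : m' ≤ m := by
      have h1 := orderOf_dvd_of_pow_eq_one hzm
      rw [hm'] at h1
      exact (Nat.pow_dvd_pow_iff_le_right hp.out.one_lt).mp h1
    refine ⟨g ^ p ^ (m' - k - 1 - s), ?_⟩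
    have h2 : ((g ^ p ^ m')⁻¹ * x ^ p ^ s) ^ p ^ (m - k - 1 - s) ∈ Subgroup.center G :=
      pow_mem hg _
    have h3 : x ^ p ^ s = g ^ p ^ m' * ((g ^ p ^ m')⁻¹ * x ^ p ^ s) := by group
    have h4 : Commute (g ^ p ^ m') ((g ^ p ^ m')⁻¹ * x ^ p ^ s) := ctr hg _
    have h5 : x ^ p ^ (m - k - 1) =
        (g ^ p ^ (m' - k - 1 - s)) ^ p ^ m *
          ((g ^ p ^ m')⁻¹ * x ^ p ^ s) ^ p ^ (m - k - 1 - s) := by
      have h6 : m - k - 1 = s + (m - k - 1 - s) := by omega
      conv_lhs => rw [h6, pow_add p, pow_mul, h3, h4.mul_pow]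
      rw [← pow_mul, ← pow_mul, ← pow_add, ← pow_add]
      congr 3
      omega
    rw [h5, inv_mul_cancel_left]
    exact h2

/-- the elementwise description of the common annihilator -/
theorem ann_iff {p : ℕ} [hp : Fact p.Prime] (hG : IsPGroup p G)
    (hZ : Subgroup.center G = commutator G) (N : Subgroup G) (x : G) :
    (∀ f : G →* Subgroup.center G, (f x : G) ∈ N) ↔
    ∀ z ∈ Subgroup.center G, ∃ g : G,
      (g ^ orderOf z)⁻¹ * x ^ Nat.card ↥(Subgroup.zpowers z ⊓ N) ∈ Subgroup.center G := by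
  rw [← cond_iff hG]
  constructor
  · intro h m k z hkm hz hzm hzk
    exact crit_two_mp hG hZ N x h m k z hkm hz hzm hzk
  · intro h f
    exact crit_two_hom hG hZ N x h f

end Pool.Agent.N47.AZ
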