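import Mathlib
import Pool.Agent.N47.AZ.Crit

/-!
The numerical criterion.
-/

set_option autoImplicit false

open scoped commutatorElement

namespace Pool.Agent.N47.AZ

open Pool.Agent.Helper832.AutC

/-- duality: a separating family of characters -/
lemma dual_card {G W : Type} [Group G] [Finite G] [CommGroup W] [Finite W]
    (ev : G →* (W →* ℂˣ)) (hinj : ∀ w : W, (∀ g, ev g w = 1) → w = 1) :
    Nat.card W * Nat.card ev.ker = Nat.card G := by
  classical
  haveI : Finite (W →* ℂˣ) :=
    Nat.finite_of_card_ne_zero (by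
      rw [CommGroup.card_monoidHom_of_hasEnoughRootsOfUnity]; exact Nat.card_pos.ne')
  haveI : HasEnoughRootsOfUnity ℂ (Monoid.exponent (W →* ℂˣ)) := by
    rw [Monoid.exponent_eq_of_mulEquiv
      (CommGroup.monoidHom_mulEquiv_of_hasEnoughRootsOfUnity W ℂ).some]
    infer_instance
  have htop : ev.range = ⊤ := by
    rw [eq_top_iff]
    intro ψ _
    rw [← CommGroup.forall_monoidHom_apply_eq_one_iff ℂ]
    intro η hη
    set w : W := CommGroup.monoidHomMonoidHomEquiv W ℂ η with hw
    have h1 : ∀ φ : W →* ℂˣ, φ w = η φ := fun φ =>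
      CommGroup.apply_monoidHomMonoidHomEquiv ℂ φ η
    have h2 : w = 1 := by
      apply hinj
      intro g
      rw [h1]
      exact hη _ ⟨g, rfl⟩
    rw [← h1, h2, map_one]
  have h1 : Nat.card W = Nat.card ev.range := by
    rw [htop, Subgroup.card_top, CommGroup.card_monoidHom_of_hasEnoughRootsOfUnity]
  have h2 := ev.ker.card_eq_card_quotient_mul_card_subgroup
  rw [h2, h1, Nat.card_congr (QuotientGroup.quotientKerEquivRange ev).toEquiv]

/-- a character with prescribed kernel -/
lemma exists_char {D : Type} [CommGroup D] [Finite D] (N : Subgroup D) [IsCyclic (D ⧸ N)] :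
    ∃ χ : D →* ℂˣ, ∀ d, χ d = 1 ↔ d ∈ N := by
  classical
  set n := Nat.card (D ⧸ N) with hn
  haveI : NeZero n := ⟨(Nat.card_pos).ne'⟩
  have hcard : Nat.card (D ⧸ N) = Nat.card (rootsOfUnity n ℂ) :=
    (Complex.card_rootsOfUnity n).symm
  let e : D ⧸ N ≃* rootsOfUnity n ℂ := mulEquivOfCyclicCardEq hcard
  refine ⟨(Subgroup.subtype _).comp (e.toMonoidHom.comp (QuotientGroup.mk' N)), fun d => ?_⟩
  have h1 : ((Subgroup.subtype _).comp (e.toMonoidHom.comp (QuotientGroup.mk' N))) d =
    ((e (d : D ⧸ N) : rootsOfUnity n ℂ) : ℂˣ) := rfl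
  rw [h1, ← QuotientGroup.eq_one_iff, OneMemClass.coe_eq_one, MulEquiv.map_eq_one_iff]

section

variable {G : Type} [Group G] [Finite G]

instance finite_hom (H K : Type) [Group H] [Group K] [Finite H] [Finite K] :
    Finite (H →* K) := Finite.of_injective (fun f => (f : H → K)) DFunLike.coe_injective

/-- the common annihilator modulo `N` of the homomorphisms to the centre -/
theorem ann_card (N : Subgroup G) (hN : N ≤ Subgroup.center G)
    [IsCyclic (Subgroup.center G ⧸ N.subgroupOf (Subgroup.center G))] :
    Nat.card {x : G // ∀ f : G →* Subgroup.center G, (f x : G) ∈ N} *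
      Nat.card (G →* Subgroup.center G) = Nat.card G * Nat.card (G →* N) := by
  classical
  obtain ⟨χ, hχ⟩ := exists_char (N.subgroupOf (Subgroup.center G))
  let Φ : (G →* Subgroup.center G) →* (G →* ℂˣ) :=
    MonoidHom.mk' (fun f => χ.comp f) (by
      intro f g
      ext x
      simp)
  let ev : G →* (Φ.range →* ℂˣ) :=
    MonoidHom.mk' (fun g => MonoidHom.mk' (fun w => w.1 g) (by intro w w'; rfl)) (by
      intro g h
      apply MonoidHom.ext
      intro w
      exact map_mul w.1 g h)
  haveI : Finite Φ.range := Finite.of_surjective Φ.rangeRestrict Φ.rangeRestrict_surjective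
  have h1 := dual_card ev (by
    intro w hw
    apply Subtype.ext
    apply MonoidHom.ext
    exact hw)
  have h2 : Nat.card ev.ker =
      Nat.card {x : G // ∀ f : G →* Subgroup.center G, (f x : G) ∈ N} := by
    apply Nat.card_congr
    refine Equiv.subtypeEquivRight (fun x => ?_)
    rw [MonoidHom.mem_ker]
    constructor
    · intro h f
      have h3 : ev x ⟨Φ f, ⟨f, rfl⟩⟩ = 1 := by rw [h]; rfl
      have h4 : χ (f x) = 1 := h3
      rw [hχ] at h4
      exact h4
    · intro h
      apply MonoidHom.ext
      rintro ⟨_, f, rfl⟩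
      show χ (f x) = 1
      rw [hχ]
      exact h f
  have h3 : Nat.card (G →* Subgroup.center G) = Nat.card Φ.range * Nat.card Φ.ker := by
    rw [Φ.ker.card_eq_card_quotient_mul_card_subgroup,
      Nat.card_congr (QuotientGroup.quotientKerEquivRange Φ).toEquiv]
  have h4 : Nat.card Φ.ker = Nat.card (G →* N) := by
    have key : ∀ f : G →* Subgroup.center G, f ∈ Φ.ker → ∀ x, (f x : G) ∈ N := by
      intro f hf x
      rw [MonoidHom.mem_ker] at hf
      have h5 : (Φ f) x = 1 := by rw [hf]; rfl
      have h6 : χ (f x) = 1 := h5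
      rw [hχ] at h6
      exact h6
    apply Nat.card_congr
    exact
      { toFun := fun f => MonoidHom.mk' (fun x => ⟨(f.1 x : G), key f.1 f.2 x⟩) (by
          intro x y
          apply Subtype.ext
          show ((f.1 (x * y) : Subgroup.center G) : G) = (f.1 x : G) * (f.1 y : G)
          rw [map_mul]; rfl)
        invFun := fun f => ⟨MonoidHom.mk' (fun x => ⟨(f x : G), hN (f x).2⟩) (by
          intro x y
          apply Subtype.ext
          show ((f (x * y) : N) : G) = (f x : G) * (f y : G)
          rw [map_mul]; rfl), by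
            rw [MonoidHom.mem_ker]
            apply MonoidHom.ext
            intro x
            show χ ⟨(f x : G), hN (f x).2⟩ = 1
            rw [hχ, Subgroup.mem_subgroupOf]
            exact (f x).2⟩
        left_inv := fun f => rfl
        right_inv := fun f => rfl }
  rw [← h2, h3, h4, ← h1]
  ring

end

end Pool.Agent.N47.AZ
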