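import Mathlib
import Pool.Agent.N47.AZ.Num

/-!
Nondegenerate alternating forms with values in a cyclic group: the underlying abelian group is a
square.
-/

set_option autoImplicit false

open scoped commutatorElement

namespace Pool.Agent.N47.AZ

open Pool.Agent.Helper832.AutC

theorem symp {p : ℕ} [hp : Fact p.Prime] (C : Type) [CommGroup C] [Finite C] [IsCyclic C] :
    ∀ (n : ℕ) (A : Type) [CommGroup A] [Finite A] (b : A →* A →* C), IsPGroup p A →
      (∀ a, b a a = 1) → (∀ a, (∀ a', b a a' = 1) → a = 1) → Nat.card A = n →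
      ∃ (H : Type) (_ : CommGroup H), Nonempty (A ≃* H × H) := by
  intro n
  induction n using Nat.strong_induction_on with
  | _ n ih =>
  intro A _ _ b hA halt hnd hn
  classical
  by_cases htriv : Subsingleton A
  · exact ⟨A, inferInstance, ⟨{
      toFun := fun a => (a, a)
      invFun := fun q => q.1
      left_inv := fun a => rfl
      right_inv := fun q => Prod.ext rfl (Subsingleton.elim _ _)
      map_mul' := fun a a' => rfl }⟩⟩
  rw [not_subsingleton_iff_nontrivial] at htriv
  have hsw : ∀ u v, b u v = (b v u)⁻¹ := by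
    intro u v
    have h1 := halt (u * v)
    rw [map_mul b, map_mul (b u * b v), MonoidHom.mul_apply, MonoidHom.mul_apply, halt, halt,
      one_mul, mul_one] at h1
    exact eq_inv_of_mul_eq_one_right h1
  obtain ⟨e, x, hxe, hAe⟩ := max_ord hA
  have he : 0 < e := by
    rcases Nat.eq_zero_or_pos e with h0 | h0
    · exfalso
      obtain ⟨a, ha⟩ := exists_ne (1 : A)
      apply ha
      have := hAe a
      rwa [h0, pow_zero, pow_one] at this
    · exact h0
  have hx1 : x ^ p ^ (e - 1) ≠ 1 := by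
    intro h1
    have h2 := orderOf_dvd_of_pow_eq_one h1
    rw [hxe] at h2
    have h3 := (Nat.pow_dvd_pow_iff_le_right hp.out.one_lt).mp h2
    omega
  obtain ⟨y, hy⟩ : ∃ y, b (x ^ p ^ (e - 1)) y ≠ 1 := by
    by_contra hcon
    push Not at hcon
    exact hx1 (hnd _ hcon)
  set c := b x y with hc
  have hc1 : c ^ p ^ (e - 1) ≠ 1 := by
    intro h1
    apply hy
    rw [map_pow]
    exact h1
  have hb : ∀ u v, (b u v) ^ p ^ e = 1 := by
    intro u v
    have h1 : b (u ^ p ^ e) v = (b u v) ^ p ^ e := by rw [map_pow]; rfl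
    rw [← h1, hAe, map_one]; rfl
  have hco : orderOf c = p ^ e := by
    have h1 : orderOf c = p ^ (e - 1 + 1) := by
      apply orderOf_eq_prime_pow hc1
      rw [Nat.sub_add_cancel he]
      exact hb x y
    rw [h1, Nat.sub_add_cancel he]
  have hyo : orderOf y = p ^ e := by
    have h1 : orderOf y = p ^ (e - 1 + 1) := by
      apply orderOf_eq_prime_pow
      · intro h1
        apply hc1
        rw [hc, ← map_pow, h1, map_one]
      · rw [Nat.sub_add_cancel he]
        exact hAe y
    rw [h1, Nat.sub_add_cancel he]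
  have hmem : ∀ u v, ∃ k : ℤ, c ^ k = b u v := by
    intro u v
    apply Subgroup.mem_zpowers_iff.mp
    apply mem_zpowers_of_dvd
    rw [hco]
    exact orderOf_dvd_of_pow_eq_one (hb u v)
  have hxz : ∀ k : ℤ, c ^ k = 1 → x ^ k = 1 := by
    intro k hk
    rw [← orderOf_dvd_iff_zpow_eq_one] at hk ⊢
    rwa [hxe, ← hco]
  have hyz : ∀ k : ℤ, c ^ k = 1 → y ^ k = 1 := by
    intro k hk
    rw [← orderOf_dvd_iff_zpow_eq_one] at hk ⊢
    rwa [hyo, ← hco]
  set A' : Subgroup A := (b x).ker ⊓ (b y).ker with hA'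
  have hm' : ∀ w, w ∈ A' ↔ b x w = 1 ∧ b y w = 1 := fun w => Iff.rfl
  have hxn : x ∉ A' := by
    rw [hm']
    rintro ⟨-, h1⟩
    apply hc1
    have : c = 1 := by rw [hc, hsw, h1, inv_one]
    rw [this, one_pow]
  have hlt : Nat.card A' < n := by
    rw [← hn, ← Subgroup.card_top (G := A)]
    apply lt_of_le_of_ne
    · exact Subgroup.card_le_of_le le_top
    · intro h1
      have h2 : A' = ⊤ := Subgroup.eq_of_le_of_card_ge le_top h1.ge
      exact hxn (h2 ▸ Subgroup.mem_top x)
  -- the decomposition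
  have hdec : ∀ u : A, ∃ i j : ℤ, (x ^ i * y ^ j)⁻¹ * u ∈ A' := by
    intro u
    obtain ⟨i, hi⟩ := hmem u y
    obtain ⟨j, hj⟩ := hmem x u
    refine ⟨i, j, ?_⟩
    rw [hm']
    constructor
    · rw [map_mul, map_inv, map_mul, map_zpow, map_zpow, halt, one_zpow, one_mul, ← hj, ← hc,
        inv_mul_cancel]
    · rw [map_mul, map_inv, map_mul, map_zpow, map_zpow, halt, one_zpow, mul_one, hsw y u, ← hi,
        hsw y x, ← hc, inv_zpow, inv_inv, mul_inv_cancel]
  let b' : A' →* A' →* C := MonoidHom.mk' (fun u => (b u).comp A'.subtype) (by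
    intro u v
    apply MonoidHom.ext
    intro w
    show b ((u : A) * (v : A)) w = b u w * b v w
    rw [map_mul]; rfl)
  obtain ⟨H, iH, ⟨ψ⟩⟩ := ih (Nat.card A') hlt A' b' (hA.to_subgroup _)
    (fun a => halt _) (by
      intro a ha
      apply Subtype.ext
      apply hnd
      intro u
      obtain ⟨i, j, hij⟩ := hdec u
      have h1 : b (a : A) ((x ^ i * y ^ j)⁻¹ * u) = 1 := ha ⟨_, hij⟩
      have h2 := (hm' _).mp a.2
      rw [map_mul, map_inv, map_mul, map_zpow, map_zpow, hsw _ x, hsw _ y, h2.1, h2.2, inv_one,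
        one_zpow, one_zpow, one_mul, inv_one, one_mul] at h1
      exact h1) rfl
  let φ : (Subgroup.zpowers x × Subgroup.zpowers y) × A' →* A :=
    MonoidHom.mk' (fun q => (q.1.1 : A) * (q.1.2 : A) * (q.2 : A)) (by
      intro q q'
      show ((q.1.1 * q'.1.1 : Subgroup.zpowers x) : A) * ((q.1.2 * q'.1.2 : Subgroup.zpowers y) : A)
        * ((q.2 * q'.2 : A') : A) = _
      simp only [Subgroup.coe_mul]
      simp only [mul_assoc, mul_left_comm, mul_comm])
  have hφi : Function.Injective φ := by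
    rw [injective_iff_map_eq_one]
    rintro ⟨⟨⟨_, i, rfl⟩, ⟨_, j, rfl⟩⟩, ⟨w, hw⟩⟩ h1
    have h2 : x ^ i * y ^ j * w = 1 := h1
    rw [hm'] at hw
    have h3 : c ^ j = 1 := by
      have h4 : b x (x ^ i * y ^ j * w) = 1 := by rw [h2, map_one]
      rw [map_mul, map_mul, map_zpow, map_zpow, halt, one_zpow, one_mul, hw.1, mul_one] at h4
      exact h4
    have h5 : c ^ i = 1 := by
      have h4 : b y (x ^ i * y ^ j * w) = 1 := by rw [h2, map_one]
      rw [map_mul, map_mul, map_zpow, map_zpow, halt, one_zpow, mul_one, hw.2, mul_one, hsw y x,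
        inv_zpow, inv_eq_one] at h4
      exact h4
    have h6 := hxz i h5
    have h7 := hyz j h3
    have h8 : w = 1 := by rw [h6, h7, one_mul, one_mul] at h2; exact h2
    refine Prod.ext (Prod.ext (Subtype.ext h6) (Subtype.ext h7)) (Subtype.ext h8)
  have hφs : Function.Surjective φ := by
    intro u
    obtain ⟨i, j, hij⟩ := hdec u
    refine ⟨((⟨x ^ i, i, rfl⟩, ⟨y ^ j, j, rfl⟩), ⟨_, hij⟩), ?_⟩
    show x ^ i * y ^ j * ((x ^ i * y ^ j)⁻¹ * u) = u
    rw [mul_inv_cancel_left]
  let Φ := MulEquiv.ofBijective φ ⟨hφi, hφs⟩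
  have hxy : Nat.card (Subgroup.zpowers y) = Nat.card (Subgroup.zpowers x) := by
    rw [Nat.card_zpowers, Nat.card_zpowers, hxe, hyo]
  let θ : Subgroup.zpowers y ≃* Subgroup.zpowers x := mulEquivOfCyclicCardEq hxy
  refine ⟨Subgroup.zpowers x × H, inferInstance, ⟨?_⟩⟩
  exact Φ.symm.trans ((MulEquiv.prodCongr
    (MulEquiv.prodCongr (MulEquiv.refl _) θ) ψ).trans
      (MulEquiv.prodProdProdComm _ _ _ _))

end Pool.Agent.N47.AZ
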