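import Mathlib
import Pool.Agent.N47.AZ.Symp

/-!
The list of equivalent conditions.
-/

set_option autoImplicit false

open scoped commutatorElement

namespace Pool.Agent.N47.AZ

open Pool.Agent.Helper832.AutC

variable {G : Type} [Group G] [Finite G]

lemma autZ_ann {p : ℕ} [hp : Fact p.Prime] (hG : IsPGroup p G)
    (hc : ∀ a b c : G, ⁅⁅a, b⁆, c⁆ = 1) (hna : ∃ a b : G, ⁅a, b⁆ ≠ 1) :
    AutZ G = AutC G ↔ (Subgroup.center G = commutator G ∧ ∀ N ≤ Subgroup.center G,
      IsCyclic (Subgroup.center G ⧸ N.subgroupOf (Subgroup.center G)) →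
      ∀ x : G, (∀ g, ⁅x, g⁆ ∈ N) ↔ ∀ f : G →* Subgroup.center G, (f x : G) ∈ N) := by
  constructor
  · intro h
    have hZ := center_eq_comm hG hc hna h.le
    refine ⟨hZ, fun N _ _ x => ⟨fun hx f => ?_, fun hx g => ?_⟩⟩
    · obtain ⟨g, hg⟩ := (hom_facts hc h.le f (inj_of_center_eq hZ f)).1 x
      rw [hg]; exact hx g
    · exact hx (MonoidHom.flip (pr hc) g)
  · rintro ⟨hZ, h⟩
    refine le_antisymm (crit_two_mpr hc ?_) (autC_le_autZ hc)
    intro N hN hcy x hx
    exact (h N hN hcy x).mp hx

lemma ann_num (hc : ∀ a b c : G, ⁅⁅a, b⁆, c⁆ = 1) (N : Subgroup G) (hN : N ≤ Subgroup.center G)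
    (hcy : IsCyclic (Subgroup.center G ⧸ N.subgroupOf (Subgroup.center G))) :
    (∀ x : G, (∀ g, ⁅x, g⁆ ∈ N) ↔ ∀ f : G →* Subgroup.center G, (f x : G) ∈ N) ↔
    Nat.card {x : G // ∀ g, ⁅x, g⁆ ∈ N} * Nat.card (G →* Subgroup.center G) =
      Nat.card G * Nat.card (G →* N) := by
  rw [← ann_card N hN]
  constructor
  · intro h
    rw [Nat.card_congr (Equiv.subtypeEquivRight h)]
  · intro h
    have h1 := Nat.eq_of_mul_eq_mul_right Nat.card_pos h
    have h2 : {x : G | ∀ f : G →* Subgroup.center G, (f x : G) ∈ N} ⊆ {x : G | ∀ g, ⁅x, g⁆ ∈ N} :=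
      fun x hx g => hx (MonoidHom.flip (pr hc) g)
    have h3 := Set.eq_of_subset_of_ncard_le h2 (by
      show Nat.card {x : G // ∀ g, ⁅x, g⁆ ∈ N} ≤
        Nat.card {x : G // ∀ f : G →* Subgroup.center G, (f x : G) ∈ N}
      exact h1.le) (Set.toFinite _)
    intro x
    exact (Set.ext_iff.mp h3 x).symm

/-- the quotient by the centre is a square -/
theorem quot_square {p : ℕ} [hp : Fact p.Prime] (hG : IsPGroup p G)
    (hc : ∀ a b c : G, ⁅⁅a, b⁆, c⁆ = 1) (hna : ∃ a b : G, ⁅a, b⁆ ≠ 1) (h : AutZ G = AutC G) :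
    ∃ (H : Type) (_ : CommGroup H), Nonempty (G ⧸ Subgroup.center G ≃* H × H) := by
  classical
  obtain ⟨hZ, hann⟩ := (autZ_ann hG hc hna).mp h
  have hB : IsPGroup p (Subgroup.center G) := hG.to_subgroup _
  letI iQ : CommGroup (G ⧸ Subgroup.center G) :=
    { (inferInstance : Group (G ⧸ Subgroup.center G)) with
      mul_comm := by
        intro u v
        obtain ⟨a, rfl⟩ := QuotientGroup.mk_surjective u
        obtain ⟨b, rfl⟩ := QuotientGroup.mk_surjective v
        apply QuotientGroup.eq.mpr
        have h1 : (a * b)⁻¹ * (b * a) = ⁅b⁻¹, a⁻¹⁆ := by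
          rw [commutatorElement_def]; group
        rw [h1]
        exact comm_center hc _ _ }
  obtain ⟨e, z, hze, hZe⟩ := max_ord hB
  obtain ⟨ι, _, C, _, _, hC, ⟨E⟩⟩ := exists_decomp (Subgroup.center G)
  have he : 0 < e := by
    rcases Nat.eq_zero_or_pos e with h0 | h0
    · exfalso
      obtain ⟨a, b, hab⟩ := hna
      apply hab
      have := hZe ⟨⁅a, b⁆, comm_center hc a b⟩
      rw [h0, pow_zero, pow_one] at this
      exact congrArg Subtype.val this
    · exact h0
  -- a coordinate of maximal order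
  obtain ⟨i, hi⟩ : ∃ i, (E z i) ^ p ^ (e - 1) ≠ 1 := by
    by_contra hcon
    push Not at hcon
    have h1 : E (z ^ p ^ (e - 1)) = 1 := by
      rw [map_pow]
      funext i
      exact hcon i
    have h2 : z ^ p ^ (e - 1) = 1 := (MulEquiv.map_eq_one_iff E).mp h1
    have h3 := orderOf_dvd_of_pow_eq_one h2
    rw [hze] at h3
    have h4 := (Nat.pow_dvd_pow_iff_le_right hp.out.one_lt).mp h3
    omega
  have hi2 : (E z i) ^ p ^ e = 1 := by
    have h1 : E (z ^ p ^ e) = 1 := by rw [hZe, map_one]
    rw [map_pow] at h1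
    exact congrFun h1 i
  have hio : orderOf (E z i) = p ^ e := by
    have h1 : orderOf (E z i) = p ^ (e - 1 + 1) := by
      apply orderOf_eq_prime_pow hi
      rw [Nat.sub_add_cancel he]
      exact hi2
    rw [h1, Nat.sub_add_cancel he]
  let π : Subgroup.center G →* C i := (Pi.evalMonoidHom C i).comp E.toMonoidHom
  have hπ : Function.Surjective π := by
    intro c
    refine ⟨E.symm (Pi.mulSingle i c), ?_⟩
    show (E (E.symm (Pi.mulSingle i c))) i = c
    rw [MulEquiv.apply_symm_apply, Pi.mulSingle_eq_same]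
  set N : Subgroup G := π.ker.map (Subgroup.center G).subtype with hN
  have hNZ : N ≤ Subgroup.center G := by
    rintro _ ⟨w, -, rfl⟩
    exact w.2
  have hNs : N.subgroupOf (Subgroup.center G) = π.ker :=
    Subgroup.comap_map_eq_self_of_injective (Subgroup.subtype_injective _) _
  have hcyc : IsCyclic (Subgroup.center G ⧸ N.subgroupOf (Subgroup.center G)) := by
    rw [hNs]
    exact isCyclic_of_surjective (QuotientGroup.quotientKerEquivOfSurjective π hπ).symm
      (QuotientGroup.quotientKerEquivOfSurjective π hπ).symm.surjective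
  have hmemN : ∀ w : Subgroup.center G, (w : G) ∈ N ↔ π w = 1 := by
    intro w
    rw [← MonoidHom.mem_ker, ← hNs, Subgroup.mem_subgroupOf]
  -- the elements whose commutators are in `N` are central
  have hrad : ∀ x : G, (∀ g, ⁅x, g⁆ ∈ N) → x ∈ Subgroup.center G := by
    intro x hx
    by_contra hxc
    have h1 := (hann N hNZ hcyc x).mp hx
    have hx1 : Abelianization.of x ≠ 1 := by
      intro h2
      apply hxc
      rw [hZ]
      exact (QuotientGroup.eq_one_iff x (N := commutator G)).mp h2
    have hA : IsPGroup p (Abelianization G) := hG.to_quotient _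
    have hexp : ∀ a : Abelianization G, a ^ p ^ e = 1 := by
      intro a
      obtain ⟨g, rfl⟩ := QuotientGroup.mk_surjective a
      have h2 : g ^ p ^ e ∈ commutator G := by
        rw [← hZ, Subgroup.mem_center_iff]
        intro k
        have h3 : ⁅g ^ p ^ e, k⁆ = 1 := by
          rw [pr_pow hc]
          exact congrArg Subtype.val (hZe ⟨⁅g, k⁆, comm_center hc g k⟩)
        exact (commutatorElement_eq_one_iff_mul_comm.mp h3).symm
      exact (QuotientGroup.eq_one_iff (g ^ p ^ e)).mpr h2
    -- a homomorphism to `C i`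
    obtain ⟨r, hr⟩ := IsPGroup.iff_orderOf.mp hA (Abelianization.of x)
    have hr0 : 0 < r := by
      rcases Nat.eq_zero_or_pos r with h0 | h0
      · exfalso
        rw [h0, pow_zero, orderOf_eq_one_iff] at hr
        exact hx1 hr
      · exact h0
    obtain ⟨f, hf⟩ := exists_hom_cyclic hA (B := C i) (Abelianization.of x)
      ((E z i) ^ p ^ (e - 1)) (by
        rintro j ⟨a, ha⟩
        rcases Nat.eq_zero_or_pos j with rfl | hj
        · exfalso
          apply hx1
          rw [pow_zero, pow_one] at ha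
          obtain ⟨t, ht⟩ : p ^ e ∣ Nat.card (C i) := by
            rw [← hio]; exact orderOf_dvd_natCard _
          rw [ha, ht, pow_mul, hexp, one_pow]
        · rw [← pow_mul, ← pow_add]
          have h2 : e - 1 + j = e + (j - 1) := by omega
          rw [h2, pow_add, pow_mul, hi2, one_pow])
    let F : G →* Subgroup.center G :=
      (E.symm.toMonoidHom.comp (MonoidHom.mulSingle C i)).comp (f.comp Abelianization.of)
    have h2 := h1 F
    rw [hmemN] at h2
    have h3 : π (F x) = (E z i) ^ p ^ (e - 1) := by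
      show (E (E.symm (Pi.mulSingle i (f (Abelianization.of x))))) i = _
      rw [MulEquiv.apply_symm_apply, Pi.mulSingle_eq_same, hf]
    exact hi (h3 ▸ h2)
  -- the form
  have hker : ∀ w ∈ Subgroup.center G, ∀ g, pr hc w g = 1 := by
    intro w hw g
    apply Subtype.ext
    exact center_comm hw g
  have hker2 : ∀ w ∈ Subgroup.center G, ∀ g, pr hc g w = 1 := by
    intro w hw g
    apply Subtype.ext
    show ⁅g, w⁆ = 1
    rw [commutatorElement_eq_one_iff_mul_comm]
    exact ctr hw g
  let b1 : G → (G ⧸ Subgroup.center G) →* C i := fun g =>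
    QuotientGroup.lift (Subgroup.center G) (π.comp (pr hc g)) (by
      intro w hw
      show π (pr hc g w) = 1
      rw [hker2 w hw g, map_one])
  have hb1 : ∀ g k : G, b1 g (k : G ⧸ Subgroup.center G) = π (pr hc g k) := fun g k => rfl
  let b2 : G →* ((G ⧸ Subgroup.center G) →* C i) := MonoidHom.mk' b1 (by
    intro g g'
    apply MonoidHom.ext
    intro q
    obtain ⟨k, rfl⟩ := QuotientGroup.mk_surjective q
    show b1 (g * g') k = b1 g k * b1 g' k
    rw [hb1, hb1, hb1, map_mul (pr hc), MonoidHom.mul_apply, map_mul])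
  let b : (G ⧸ Subgroup.center G) →* ((G ⧸ Subgroup.center G) →* C i) :=
    QuotientGroup.lift (Subgroup.center G) b2 (by
      intro w hw
      apply MonoidHom.ext
      intro q
      obtain ⟨k, rfl⟩ := QuotientGroup.mk_surjective q
      show b1 w k = 1
      rw [hb1, hker w hw k, map_one])
  have hb : ∀ g k : G, b (g : G ⧸ Subgroup.center G) (k : G ⧸ Subgroup.center G) =
    π (pr hc g k) := fun g k => rfl
  refine symp (p := p) (C i) (Nat.card (G ⧸ Subgroup.center G)) (G ⧸ Subgroup.center G) b
    (hG.to_quotient _) ?_ ?_ rfl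
  · intro q
    obtain ⟨g, rfl⟩ := QuotientGroup.mk_surjective q
    show b (g : G ⧸ Subgroup.center G) (g : G ⧸ Subgroup.center G) = 1
    rw [hb]
    have : pr hc g g = 1 := by
      apply Subtype.ext
      exact commutatorElement_self g
    rw [this, map_one]
  · intro q hq
    obtain ⟨g, rfl⟩ := QuotientGroup.mk_surjective q
    show (g : G ⧸ Subgroup.center G) = 1
    rw [QuotientGroup.eq_one_iff]
    apply hrad
    intro k
    have h1 := hq (k : G ⧸ Subgroup.center G)
    have h2 : π (pr hc g k) = 1 := h1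
    exact (hmemN (pr hc g k)).mpr h2

end Pool.Agent.N47.AZ
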